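import Mathlib

/-!
The circle, the irrational rotation and the gap function used for the counterexample.
-/

noncomputable section

open MeasureTheory Set Filter Topology
open scoped ENNReal

namespace Pool.Agent.MP_1231ed_gt

abbrev Y : Type := AddCircle (1 : ℝ)

abbrev mu : Measure Y := AddCircle.haarAddCircle

/-- half of the rotation angle -/
def be : Y := ((Real.sqrt 2 : ℝ) : Y)

/-- the rotation angle -/
def al : Y := be + be

theorem denseRange_al : DenseRange (fun n : ℤ => n • al) := by
  have h : al = ((Real.sqrt 2 + Real.sqrt 2 : ℝ) : Y) := by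
    simp [al, be]
  rw [h, AddCircle.denseRange_zsmul_coe_iff]
  have h2 : (Real.sqrt 2 + Real.sqrt 2) / 1 = ((2 : ℕ) : ℝ) * Real.sqrt 2 := by
    push_cast; ring
  rw [h2]
  exact irrational_sqrt_two.natCast_mul (by norm_num)

theorem ergodic_al : Ergodic (fun x : Y => al + x) mu :=
  ergodic_add_left_of_denseRange_zsmul denseRange_al mu

def gam (y : Y) : ℝ := 1 + periodizedBernoulli 2 y

theorem continuous_gam : Continuous gam :=
  continuous_const.add (periodizedBernoulli.continuous (by norm_num))

theorem gam_coe {t : ℝ} (ht : t ∈ Ico (0 : ℝ) 1) : gam (t : Y) = 1 + (t ^ 2 - t + 6⁻¹) := by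
  unfold gam periodizedBernoulli
  rw [AddCircle.liftIco_zero_coe_apply ht, bernoulliFun_two]

theorem gam_lower (y : Y) : 1 / 2 ≤ gam y := by
  obtain ⟨t, ht, rfl⟩ := y.eq_coe_Ico
  rw [gam_coe ht]
  nlinarith [sq_nonneg (t - 1 / 2)]

theorem gam_upper (y : Y) : gam y ≤ 2 := by
  obtain ⟨t, ht, rfl⟩ := y.eq_coe_Ico
  rw [gam_coe ht]
  nlinarith [ht.1, ht.2]

theorem gam_neg (y : Y) : gam (-y) = gam y := by
  obtain ⟨t, ht, rfl⟩ := y.eq_coe_Ico
  rcases eq_or_lt_of_le ht.1 with h0 | h0
  · subst h0; simp
  · have h1 : -((t : ℝ) : Y) = ((1 - t : ℝ) : Y) := by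
      rw [AddCircle.coe_sub]
      have : ((1 : ℝ) : Y) = 0 := AddCircle.coe_period 1
      rw [this, zero_sub]
    have h2 : (1 - t) ∈ Ico (0 : ℝ) 1 := ⟨by linarith [ht.2], by linarith⟩
    rw [h1, gam_coe h2, gam_coe ht]
    ring

theorem integral_fourier_ne_zero {k : ℤ} (hk : k ≠ 0) :
    ∫ t : Y, fourier k t ∂mu = 0 := by
  have h := integral_eq_zero_of_add_right_eq_neg (μ := mu)
    (fourier_add_half_inv_index (T := 1) hk one_pos)
  exact h

theorem fourier_gam_ne_zero {k : ℤ} (hk : k ≠ 0) :
    ∫ t : Y, fourier (-k) t * (gam t : ℂ) ∂mu ≠ 0 := by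
  have h := fourierCoeff_bernoulli_eq (k := 2) (by norm_num) k
  have hB : Continuous (fun t : Y => (periodizedBernoulli 2 t : ℂ)) :=
    Complex.continuous_ofReal.comp (periodizedBernoulli.continuous (by norm_num))
  have h1 : ∫ t : Y, fourier (-k) t * (gam t : ℂ) ∂mu
      = ∫ t : Y, fourier (-k) t ∂mu
        + ∫ t : Y, fourier (-k) t * (periodizedBernoulli 2 t : ℂ) ∂mu := by
    rw [← integral_add]
    · congr 1; ext t; simp only [gam]; push_cast; ring
    · exact (map_continuous (fourier (-k))).integrable_of_hasCompactSupport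
        (HasCompactSupport.of_compactSpace _)
    · exact ((map_continuous (fourier (-k))).mul hB).integrable_of_hasCompactSupport
        (HasCompactSupport.of_compactSpace _)
  rw [h1, integral_fourier_ne_zero (neg_ne_zero.mpr hk), zero_add]
  have h2 : ∫ t : Y, fourier (-k) t * (periodizedBernoulli 2 t : ℂ) ∂mu
      = fourierCoeff ((↑) ∘ periodizedBernoulli 2 : Y → ℂ) k := by
    simp only [fourierCoeff, smul_eq_mul, Function.comp]
  rw [h2, h]
  have hk' : (k : ℂ) ≠ 0 := by exact_mod_cast hk
  have hpi : (Real.pi : ℂ) ≠ 0 := by exact_mod_cast Real.pi_ne_zero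
  apply div_ne_zero
  · simp
  · apply pow_ne_zero
    simp [hk', hpi]

theorem fourier_arg_add (k : ℤ) (x y : Y) : fourier k (x + y) = fourier k x * fourier k y := by
  simp only [fourier_apply, smul_add, AddCircle.toCircle_add, Circle.coe_mul]

/-- A probability measure against which all the translates of `gam` along the orbit have
the same integral is the Haar measure. -/
theorem eq_mu_of_translates (lam : Measure Y) [IsProbabilityMeasure lam] (c : ℝ)
    (h : ∀ n : ℤ, ∫ y, gam (y + be + n • al) ∂lam = c) : lam = mu := by
  have hcont : Continuous (fun t : Y => ∫ y, gam (y + t) ∂lam) := by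
    have : Continuous (Function.uncurry (fun t y : Y => gam (y + t))) :=
      continuous_gam.comp (continuous_snd.add continuous_fst)
    have h2 := continuous_parametric_integral_of_continuous (μ := lam) this isCompact_univ
    simpa using h2
  have hall : ∀ t : Y, ∫ y, gam (y + t) ∂lam = c := by
    have hd : DenseRange (fun n : ℤ => be + n • al) :=
      ((Homeomorph.addLeft be).surjective.denseRange).comp denseRange_al
        (Homeomorph.addLeft be).continuous
    intro t
    refine hd.induction_on t (isClosed_eq hcont continuous_const) ?_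
    intro n
    simpa only [add_assoc] using h n
  have hfour : ∀ k : ℤ, ∫ y, fourier k y ∂lam = ∫ y, fourier k y ∂mu := by
    intro k
    rcases eq_or_ne k 0 with rfl | hk
    · simp
    rw [integral_fourier_ne_zero hk]
    have hF : Continuous (Function.uncurry
        (fun t y : Y => fourier (-k) t * (gam (y + t) : ℂ))) := by
      refine ((map_continuous (fourier (-k))).comp continuous_fst).mul ?_
      exact Complex.continuous_ofReal.comp
        (continuous_gam.comp (continuous_snd.add continuous_fst))
    have hint : Integrable (Function.uncurry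
        (fun t y : Y => fourier (-k) t * (gam (y + t) : ℂ))) (mu.prod lam) :=
      hF.integrable_of_hasCompactSupport (HasCompactSupport.of_compactSpace _)
    have hswap := integral_integral_swap hint
    have hl : ∫ t, ∫ y, fourier (-k) t * (gam (y + t) : ℂ) ∂lam ∂mu = 0 := by
      have : ∀ t : Y, ∫ y, fourier (-k) t * (gam (y + t) : ℂ) ∂lam = fourier (-k) t * c := by
        intro t
        rw [integral_const_mul, integral_complex_ofReal, hall]
      simp_rw [this]
      rw [integral_mul_const, integral_fourier_ne_zero (neg_ne_zero.mpr hk), zero_mul]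
    have hr : ∀ y : Y, ∫ t, fourier (-k) t * (gam (y + t) : ℂ) ∂mu
        = fourier k y * ∫ t : Y, fourier (-k) t * (gam t : ℂ) ∂mu := by
      intro y
      rw [← integral_const_mul,
        ← integral_add_left_eq_self (fun t : Y => fourier k y * (fourier (-k) t * (gam t : ℂ))) y]
      congr 1; ext t
      rw [fourier_arg_add, ← mul_assoc, ← mul_assoc, ← fourier_add]
      simp
    rw [hl] at hswap
    simp_rw [hr] at hswap
    rw [integral_mul_const] at hswap
    exact (mul_eq_zero.mp hswap.symm).resolve_right (fourier_gam_ne_zero hk)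
  have hallC : ∀ f : C(Y, ℂ), ∫ y, f y ∂lam = ∫ y, f y ∂mu := by
    intro f
    have hmem : f ∈ (Submodule.span ℂ (range (@fourier 1))).topologicalClosure := by
      rw [span_fourier_closure_eq_top]; trivial
    have hint : ∀ (g : C(Y, ℂ)) (ν : Measure Y) [IsFiniteMeasure ν], Integrable g ν :=
      fun g ν _ => (map_continuous g).integrable_of_hasCompactSupport
        (HasCompactSupport.of_compactSpace _)
    have hc : ∀ (ν : Measure Y) [IsProbabilityMeasure ν],
        Continuous (fun g : C(Y, ℂ) => ∫ y, g y ∂ν) := by
      intro ν _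
      refine (LipschitzWith.of_dist_le_mul (K := 1) ?_).continuous
      intro g g'
      rw [dist_eq_norm, dist_eq_norm, ← integral_sub (hint g ν) (hint g' ν)]
      have := norm_integral_le_of_norm_le_const (μ := ν) (f := fun y => g y - g' y)
        (C := ‖g - g'‖) (Eventually.of_forall fun y => (g - g').norm_coe_le_norm y)
      simpa using this
    have hcl : IsClosed {g : C(Y, ℂ) | ∫ y, g y ∂lam = ∫ y, g y ∂mu} :=
      isClosed_eq (hc lam) (hc mu)
    refine closure_minimal (s := (Submodule.span ℂ (range (@fourier 1)) : Set C(Y, ℂ))) ?_ hcl hmem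
    intro g hg
    induction hg using Submodule.span_induction with
    | mem x hx => obtain ⟨k, rfl⟩ := hx; exact hfour k
    | zero => simp
    | add x y _ _ hx hy =>
      simp only [mem_ofPred_eq, ContinuousMap.add_apply] at hx hy ⊢
      rw [integral_add (hint x lam) (hint y lam), integral_add (hint x mu) (hint y mu), hx, hy]
    | smul a x _ hx =>
      simp only [mem_ofPred_eq, ContinuousMap.smul_apply] at hx ⊢
      rw [integral_smul, integral_smul, hx]
  apply ext_of_forall_integral_eq_of_IsFiniteMeasure
  intro f
  have := hallC ⟨fun y => (f y : ℂ), Complex.continuous_ofReal.comp f.continuous⟩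
  simp only [ContinuousMap.coe_mk] at this
  rw [integral_complex_ofReal, integral_complex_ofReal] at this
  exact_mod_cast this

end Pool.Agent.MP_1231ed_gt
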