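import Mathlib
import Pool.Agent.MP_1231ed_gt.Gap

/-!
The flux argument: if `x ↦ x + M x • al` preserves the Haar measure and `M` is integrable, then
the mean of `M` is an integer.
-/

noncomputable section

open MeasureTheory Set Filter Topology
open scoped ENNReal

namespace Pool.Agent.MP_1231ed_gt

theorem lintegral_tsum_shift (w : ℤ → Y → ℝ≥0∞) (hw : ∀ i, Measurable (w i)) :
    ∫⁻ x, ∑' i : ℤ, w i (x - i • al) ∂mu = ∫⁻ x, ∑' i : ℤ, w i x ∂mu := by
  rw [lintegral_tsum (f := fun (i : ℤ) x => w i (x - i • al))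
      (fun i => ((hw i).comp (measurable_id.sub_const _)).aemeasurable),
    lintegral_tsum (fun i => (hw i).aemeasurable)]
  congr 1; ext i
  exact lintegral_sub_right_eq_self (w i) (i • al)

theorem tsum_ite_nat (P : ℤ → Prop) [DecidablePred P]
    (h : (∑' i : ℤ, (if P i then 1 else 0 : ℝ≥0∞)) ≠ ⊤) :
    ∃ n : ℕ, (∑' i : ℤ, (if P i then 1 else 0 : ℝ≥0∞)) = n := by
  have h1 : (∑' i : ℤ, (if P i then 1 else 0 : ℝ≥0∞)) = ({i | P i} : Set ℤ).encard := by
    rw [← ENNReal.tsum_set_one, tsum_subtype ({i | P i} : Set ℤ) (fun _ => (1 : ℝ≥0∞))]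
    congr 1; ext i
    simp [indicator_apply]
  rw [h1] at h ⊢
  have h2 : ({i | P i} : Set ℤ).encard ≠ ⊤ := by
    intro h3; rw [h3] at h; simp at h
  obtain ⟨n, hn⟩ := ENat.ne_top_iff_exists.mp h2
  exact ⟨n, by rw [← hn]; simp⟩

theorem tsum_ite_Ico (a b : ℤ) :
    (∑' i : ℤ, (if a ≤ i ∧ i < b then 1 else 0 : ℝ≥0∞)) = ENNReal.ofReal ((b : ℝ) - a) := by
  rw [tsum_eq_sum (s := Finset.Ico a b)]
  · rw [Finset.sum_congr rfl (g := fun _ => (1 : ℝ≥0∞))]
    · simp only [Finset.sum_const, Int.card_Ico, nsmul_eq_mul, mul_one]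
      rcases le_total a b with h | h
      · rw [← ENNReal.ofReal_natCast]
        congr 1
        have : ((b - a).toNat : ℤ) = b - a := Int.toNat_of_nonneg (by omega)
        exact_mod_cast this
      · have : (b - a).toNat = 0 := by omega
        rw [this, ENNReal.ofReal_of_nonpos]
        · simp
        · have : (b : ℝ) ≤ a := by exact_mod_cast h
          linarith
    · intro i hi
      rw [if_pos (Finset.mem_Ico.mp hi)]
  · intro i hi
    rw [if_neg (fun h => hi (Finset.mem_Ico.mpr h))]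

theorem integral_int_of_map_eq (M : Y → ℤ) (hM : Measurable M)
    (hint : Integrable (fun x => (M x : ℝ)) mu)
    (hmap : Measure.map (fun x => x + M x • al) mu = mu) :
    ∃ c : ℤ, ∫ x, (M x : ℝ) ∂mu = c := by
  classical
  set Jp : Y → ℝ≥0∞ := fun x => ∑' i : ℤ,
    (if 0 ≤ i ∧ i < M (x - i • al) then 1 else 0 : ℝ≥0∞) with hJp
  set Jm : Y → ℝ≥0∞ := fun x => ∑' i : ℤ,
    (if M (x - i • al) ≤ i ∧ i < 0 then 1 else 0 : ℝ≥0∞) with hJm
  set N : Y → ℝ≥0∞ := fun x => ∑' i : ℤ,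
    (if M (x - i • al) = i then 1 else 0 : ℝ≥0∞) with hN
  have hmeas : ∀ u : ℤ → ℝ≥0∞, Measurable (fun y => u (M y)) :=
    fun u => (measurable_of_countable u).comp hM
  have hmeas' : ∀ (u : ℤ → ℝ≥0∞) (a : Y), Measurable (fun y => u (M (y - a))) :=
    fun u a => (hmeas u).comp (measurable_id.sub_const a)
  have mJp : Measurable Jp := Measurable.tsum fun i =>
    hmeas' (fun m => if 0 ≤ i ∧ i < m then 1 else 0) _
  have mJm : Measurable Jm := Measurable.tsum fun i =>
    hmeas' (fun m => if m ≤ i ∧ i < 0 then 1 else 0) _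
  have mN : Measurable N := Measurable.tsum fun i =>
    hmeas' (fun m => if m = i then 1 else 0) _
  have iJp : ∫⁻ x, Jp x ∂mu = ∫⁻ x, ENNReal.ofReal (M x : ℝ) ∂mu := by
    rw [hJp, lintegral_tsum_shift (fun i y => if 0 ≤ i ∧ i < M y then 1 else 0)
      (fun i => hmeas (fun m => if 0 ≤ i ∧ i < m then 1 else 0))]
    congr 1; ext x
    rw [tsum_ite_Ico]; simp
  have iJm : ∫⁻ x, Jm x ∂mu = ∫⁻ x, ENNReal.ofReal (-(M x : ℝ)) ∂mu := by
    rw [hJm, lintegral_tsum_shift (fun i y => if M y ≤ i ∧ i < 0 then 1 else 0)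
      (fun i => hmeas (fun m => if m ≤ i ∧ i < 0 then 1 else 0))]
    congr 1; ext x
    rw [tsum_ite_Ico]; simp
  have fJp : ∫⁻ x, Jp x ∂mu ≠ ⊤ := by
    rw [iJp]; exact hint.lintegral_lt_top.ne
  have fJm : ∫⁻ x, Jm x ∂mu ≠ ⊤ := by
    rw [iJm]; exact hint.neg.lintegral_lt_top.ne
  have aJp : ∀ᵐ x ∂mu, Jp x < ⊤ := ae_lt_top mJp fJp
  have aJm : ∀ᵐ x ∂mu, Jm x < ⊤ := ae_lt_top mJm fJm
  have hTheta : Measurable (fun x => x + M x • al) :=
    measurable_id.add ((measurable_of_countable (fun m : ℤ => m • al)).comp hM)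
  have aN : N =ᵐ[mu] fun _ => 1 := by
    apply ae_eq_of_forall_setLIntegral_eq_of_sigmaFinite mN measurable_const
    intro E hE _
    rw [← lintegral_indicator hE]
    have h1 : ∀ x, E.indicator N x = ∑' i : ℤ,
        (fun (i : ℤ) (y : Y) => E.indicator (fun _ => (1 : ℝ≥0∞)) (y + i • al)
          * (if M y = i then 1 else 0)) i (x - i • al) := by
      intro x
      simp only [sub_add_cancel]
      by_cases hx : x ∈ E
      · simp [hx, hN]
      · simp [hx]
    simp_rw [h1]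
    rw [lintegral_tsum_shift (fun (i : ℤ) (y : Y) => E.indicator (fun _ => (1 : ℝ≥0∞)) (y + i • al)
          * (if M y = i then 1 else 0))]
    · have h2 : ∀ y : Y, (∑' i : ℤ, E.indicator (fun _ => (1 : ℝ≥0∞)) (y + i • al)
          * (if M y = i then 1 else 0)) = E.indicator (fun _ => (1 : ℝ≥0∞)) (y + M y • al) := by
        intro y
        rw [tsum_eq_single (M y)]
        · simp
        · intro i hi
          rw [if_neg (fun h => hi h.symm), mul_zero]
      simp_rw [h2]
      rw [← lintegral_map (f := E.indicator (fun _ => (1 : ℝ≥0∞)))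
        (measurable_const.indicator hE) hTheta, hmap, lintegral_indicator hE]
    · intro i
      exact ((measurable_const.indicator hE).comp (measurable_id.add_const _)).mul
        (hmeas (fun m => if m = i then 1 else 0))
  have hid : ∀ x, Jp x + Jm (al + x) + 1 = Jp (al + x) + Jm x + N (al + x) := by
    intro x
    have e1 : ∀ i : ℤ, x - (i - 1) • al = al + x - i • al := by
      intro i; rw [sub_smul, one_smul]; abel
    have h1 : Jp x = ∑' i : ℤ,
        (if 0 ≤ i - 1 ∧ i - 1 < M (al + x - i • al) then 1 else 0 : ℝ≥0∞) := by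
      rw [hJp]
      simp only
      rw [← (Equiv.subRight (1 : ℤ)).tsum_eq]
      simp only [Equiv.subRight_apply, e1]
    have h2 : Jm x = ∑' i : ℤ,
        (if M (al + x - i • al) ≤ i - 1 ∧ i - 1 < 0 then 1 else 0 : ℝ≥0∞) := by
      rw [hJm]
      simp only
      rw [← (Equiv.subRight (1 : ℤ)).tsum_eq]
      simp only [Equiv.subRight_apply, e1]
    have h3 : (1 : ℝ≥0∞) = ∑' i : ℤ, (if i = 0 then 1 else 0 : ℝ≥0∞) := by
      rw [tsum_ite_eq]
    rw [h1, h2]
    conv_lhs => rw [h3]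
    simp only [hJp, hJm, hN]
    rw [← ENNReal.tsum_add, ← ENNReal.tsum_add, ← ENNReal.tsum_add, ← ENNReal.tsum_add]
    congr 1; ext i
    generalize M (al + x - i • al) = m
    split_ifs <;> first | rfl | omega | simp
  set J : Y → ℝ := fun x => (Jp x).toReal - (Jm x).toReal with hJ
  have mJ : Measurable J := mJp.ennreal_toReal.sub mJm.ennreal_toReal
  have hq := ergodic_al.toMeasurePreserving.quasiMeasurePreserving
  have hinv : J ∘ (fun x => al + x) =ᵐ[mu] J := by
    filter_upwards [aJp, aJm, hq.ae aJp, hq.ae aJm, hq.ae aN] with x h1 h2 h3 h4 h5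
    have h6 := hid x
    rw [h5] at h6
    have h7 := congrArg ENNReal.toReal h6
    rw [ENNReal.toReal_add (by finiteness) (by simp), ENNReal.toReal_add h1.ne h4.ne,
      ENNReal.toReal_add (by finiteness) (by simp), ENNReal.toReal_add h3.ne h2.ne] at h7
    simp only [Function.comp, hJ]
    linarith
  obtain ⟨c, hc⟩ := ergodic_al.ae_eq_const_of_ae_eq_comp₀ mJ.nullMeasurable hinv
  have hex : ∃ x, Jp x < ⊤ ∧ Jm x < ⊤ ∧ J x = c := by
    have : ∀ᵐ x ∂mu, Jp x < ⊤ ∧ Jm x < ⊤ ∧ J x = c := by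
      filter_upwards [aJp, aJm, hc] with x h1 h2 h3 using ⟨h1, h2, h3⟩
    exact this.exists
  obtain ⟨x, h1, h2, h3⟩ := hex
  obtain ⟨n1, hn1⟩ := tsum_ite_nat _ h1.ne
  obtain ⟨n2, hn2⟩ := tsum_ite_nat _ h2.ne
  refine ⟨(n1 : ℤ) - n2, ?_⟩
  have h4 : c = (n1 : ℝ) - n2 := by
    rw [← h3]
    simp only [hJ, hJp, hJm, hn1, hn2]
    simp
  have h5 : ∫ x, J x ∂mu = c := by
    rw [integral_congr_ae hc]; simp
  have h6 : ∫ x, J x ∂mu = ∫ x, (M x : ℝ) ∂mu := by
    rw [hJ, integral_sub (integrable_toReal_of_lintegral_ne_top mJp.aemeasurable fJp)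
      (integrable_toReal_of_lintegral_ne_top mJm.aemeasurable fJm),
      integral_toReal mJp.aemeasurable aJp, integral_toReal mJm.aemeasurable aJm, iJp, iJm,
      integral_eq_lintegral_pos_part_sub_lintegral_neg_part hint]
  rw [← h6, h5, h4]; push_cast; ring

end Pool.Agent.MP_1231ed_gt
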