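import Mathlib
import Pool.Agent.MP_1231ed_gt.Gap

/-!
The position cocycle `F`, the fibre distance `D` and the twisted metric `rho` on the space of
integrable integer valued functions on the circle.
-/

noncomputable section

open MeasureTheory Set Filter Topology
open scoped ENNReal

namespace Pool.Agent.MP_1231ed_gt

def g (y : Y) : ℝ := gam (y + be)

theorem continuous_g : Continuous g := continuous_gam.comp (continuous_id.add continuous_const)

theorem g_refl (y : Y) : g (-y - al) = g y := by
  unfold g
  rw [← gam_neg]
  congr 1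
  simp only [al]; abel

def F (x : Y) (n : ℤ) : ℝ :=
  ∑ j ∈ Finset.Ico 0 n, g (x + j • al) - ∑ j ∈ Finset.Ico n 0, g (x + j • al)

theorem F_succ (x : Y) (n : ℤ) : F x (n + 1) = F x n + g (x + n • al) := by
  unfold F
  rcases le_or_gt 0 n with h | h
  · have h1 : Finset.Ico 0 (n + 1) = insert n (Finset.Ico 0 n) := by
      ext j; simp only [Finset.mem_Ico, Finset.mem_insert]; omega
    have h2 : Finset.Ico (n + 1) 0 = ∅ := Finset.Ico_eq_empty (by omega)
    have h3 : Finset.Ico n 0 = ∅ := Finset.Ico_eq_empty (by omega)
    rw [h1, h2, h3, Finset.sum_insert (by simp)]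
    ring
  · have h1 : Finset.Ico n 0 = insert n (Finset.Ico (n + 1) 0) := by
      ext j; simp only [Finset.mem_Ico, Finset.mem_insert]; omega
    have h2 : Finset.Ico 0 (n + 1) = ∅ := Finset.Ico_eq_empty (by omega)
    have h3 : Finset.Ico 0 n = ∅ := Finset.Ico_eq_empty (by omega)
    rw [h1, h2, h3, Finset.sum_insert (by simp)]
    ring

theorem continuous_F (n : ℤ) : Continuous (fun x => F x n) := by
  unfold F
  exact (continuous_finsetSum _ fun j _ =>
    continuous_g.comp (continuous_id.add continuous_const)).sub
    (continuous_finsetSum _ fun j _ => continuous_g.comp (continuous_id.add continuous_const))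

theorem F_lower (x : Y) {i j : ℤ} (h : i ≤ j) : ((j : ℝ) - i) / 2 ≤ F x j - F x i := by
  have : Monotone (fun n : ℤ => F x n - (n : ℝ) / 2) := by
    apply monotone_int_of_le_succ
    intro n
    rw [F_succ]
    have := gam_lower (x + n • al + be)
    simp only [g]
    push_cast
    linarith
  have := this h
  simp only at this
  linarith

theorem F_upper (x : Y) {i j : ℤ} (h : i ≤ j) : F x j - F x i ≤ 2 * ((j : ℝ) - i) := by
  have : Monotone (fun n : ℤ => 2 * (n : ℝ) - F x n) := by
    apply monotone_int_of_le_succ
    intro n
    rw [F_succ]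
    have := gam_upper (x + n • al + be)
    simp only [g]
    push_cast
    linarith
  have := this h
  simp only at this
  linarith

theorem F_strictMono (x : Y) : StrictMono (F x) := by
  intro i j h
  have h1 := F_lower x h.le
  have h2 : (i : ℝ) < j := by exact_mod_cast h
  linarith

def D (x : Y) (i j : ℤ) : ℝ := |F x i - F x j|

theorem D_nonneg (x : Y) (i j : ℤ) : 0 ≤ D x i j := abs_nonneg _

theorem D_self (x : Y) (i : ℤ) : D x i i = 0 := by simp [D]

theorem D_comm (x : Y) (i j : ℤ) : D x i j = D x j i := abs_sub_comm _ _

theorem D_triangle (x : Y) (i j k : ℤ) : D x i k ≤ D x i j + D x j k := abs_sub_le _ _ _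

theorem D_lower (x : Y) (i j : ℤ) : dist i j / 2 ≤ D x i j := by
  rw [Int.dist_eq, D]
  rcases le_total i j with h | h
  · have h1 := F_lower x h
    have h2 : (i : ℝ) ≤ j := by exact_mod_cast h
    rw [abs_of_nonpos (by linarith), abs_of_nonpos (by linarith)]
    linarith
  · have h1 := F_lower x h
    have h2 : (j : ℝ) ≤ i := by exact_mod_cast h
    rw [abs_of_nonneg (by linarith), abs_of_nonneg (by linarith)]
    linarith

theorem D_upper (x : Y) (i j : ℤ) : D x i j ≤ 2 * dist i j := by
  rw [Int.dist_eq, D]
  rcases le_total i j with h | h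
  · have h1 := F_upper x h
    have h3 := F_lower x h
    have h2 : (i : ℝ) ≤ j := by exact_mod_cast h
    rw [abs_of_nonpos (by linarith), abs_of_nonpos (by linarith)]
    linarith
  · have h1 := F_upper x h
    have h3 := F_lower x h
    have h2 : (j : ℝ) ≤ i := by exact_mod_cast h
    rw [abs_of_nonneg (by linarith), abs_of_nonneg (by linarith)]
    linarith

theorem D_between_iff (x : Y) (i j k : ℤ) :
    D x i j + D x j k = D x i k ↔ (i ≤ j ∧ j ≤ k) ∨ (k ≤ j ∧ j ≤ i) := by
  simp only [← (F_strictMono x).le_iff_le, D]
  generalize F x i = a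
  generalize F x j = b
  generalize F x k = c
  constructor
  · intro h
    rcases abs_cases (a - b) with h1 | h1 <;> rcases abs_cases (b - c) with h2 | h2 <;>
      rcases abs_cases (a - c) with h3 | h3 <;>
      first
      | (left; constructor <;> linarith)
      | (right; constructor <;> linarith)
  · rintro (⟨h1, h2⟩ | ⟨h1, h2⟩)
    · rw [abs_of_nonpos (by linarith), abs_of_nonpos (by linarith), abs_of_nonpos (by linarith)]
      ring
    · rw [abs_of_nonneg (by linarith), abs_of_nonneg (by linarith), abs_of_nonneg (by linarith)]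
      ring

theorem D_succ (x : Y) (n : ℤ) : D x n (n + 1) = g (x + n • al) := by
  rw [D, F_succ]
  have := gam_lower (x + n • al + be)
  rw [abs_of_nonpos (by simp only [g]; linarith)]
  ring

def tau (s : ℤ) (x : Y) : Y := -x - s • al

theorem tau_tau (s : ℤ) (x : Y) : tau s (tau s x) = x := by
  simp [tau]

theorem measurePreserving_tau (s : ℤ) : MeasurePreserving (tau s) mu mu :=
  (measurePreserving_sub_right mu (s • al)).comp (Measure.measurePreserving_neg mu)

theorem measurable_tau (s : ℤ) : Measurable (tau s) := (measurePreserving_tau s).measurable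

theorem ae_tau (s : ℤ) {p : Y → Prop} (h : ∀ᵐ x ∂mu, p x) : ∀ᵐ x ∂mu, p (tau s x) :=
  (measurePreserving_tau s).quasiMeasurePreserving.ae h

def tauEquiv (s : ℤ) : Y ≃ᵐ Y where
  toFun := tau s
  invFun := tau s
  left_inv := tau_tau s
  right_inv := tau_tau s
  measurable_toFun := measurable_tau s
  measurable_invFun := measurable_tau s

theorem integral_tau (s : ℤ) (u : Y → ℝ) : ∫ x, u (tau s x) ∂mu = ∫ x, u x ∂mu :=
  MeasurePreserving.integral_comp' (f := tauEquiv s) (measurePreserving_tau s) u

theorem F_tau (s : ℤ) (x : Y) (j : ℤ) :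
    F (tau s x) (s - j) + F x j = F (tau s x) s + F x 0 := by
  have step : ∀ j : ℤ, F (tau s x) (s - (j + 1)) + F x (j + 1) = F (tau s x) (s - j) + F x j := by
    intro j
    have h1 := F_succ (tau s x) (s - (j + 1))
    have h2 : s - (j + 1) + 1 = s - j := by ring
    rw [h2] at h1
    have h3 : tau s x + (s - (j + 1)) • al = -(x + j • al) - al := by
      simp only [tau, sub_smul, add_smul, one_smul]; abel
    rw [h3, g_refl] at h1
    rw [F_succ x j, h1]; ring
  induction j using Int.induction_on with
  | zero => simp
  | succ n ih => rw [step, ih]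
  | pred n ih =>
    have := step (-(n : ℤ) - 1)
    rw [sub_add_cancel] at this
    rw [← this, ih]

theorem D_tau (s : ℤ) (x : Y) (i j : ℤ) : D (tau s x) (s - i) (s - j) = D x i j := by
  have h1 := F_tau s x i
  have h2 := F_tau s x j
  rw [D, D, abs_sub_comm]
  congr 1
  linarith

abbrev L : Type := Lp ℤ 1 mu

theorem L_measurable (k : L) : Measurable (k : Y → ℤ) := (Lp.stronglyMeasurable k).measurable

theorem measurable_F_comp {k : Y → ℤ} (hk : Measurable k) : Measurable (fun x => F x (k x)) := by
  have h : Measurable (fun p : Y × ℤ => F p.1 p.2) := by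
    apply measurable_from_prod_countable_left
    intro n
    exact (continuous_F n).measurable
  have h2 : Measurable (fun x : Y => (x, k x)) := measurable_id.prodMk hk
  exact Measurable.comp (g := fun p : Y × ℤ => F p.1 p.2) (f := fun x : Y => (x, k x)) h h2

theorem integrable_dist (k l : L) : Integrable (fun x => dist (k x) (l x)) mu := by
  have h := ((L1.integrable_coeFn k).sub (L1.integrable_coeFn l)).norm
  simpa only [dist_eq_norm, Pi.sub_apply] using h

theorem integrable_D (k l : L) : Integrable (fun x => D x (k x) (l x)) mu := by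
  refine Integrable.mono' ((integrable_dist k l).const_mul 2) ?_ ?_
  · exact (((measurable_F_comp (L_measurable k)).sub
      (measurable_F_comp (L_measurable l))).abs).aestronglyMeasurable
  · refine Eventually.of_forall fun x => ?_
    rw [Real.norm_eq_abs, abs_of_nonneg (D_nonneg _ _ _)]
    exact D_upper _ _ _

def rho (k l : L) : ℝ := ∫ x, D x (k x) (l x) ∂mu

theorem rho_nonneg (k l : L) : 0 ≤ rho k l := integral_nonneg fun _ => D_nonneg _ _ _

theorem rho_self (k : L) : rho k k = 0 := by simp [rho, D_self]

theorem rho_comm (k l : L) : rho k l = rho l k := by simp only [rho, D_comm]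

theorem rho_triangle (k l m : L) : rho k m ≤ rho k l + rho l m := by
  unfold rho
  rw [← integral_add (integrable_D k l) (integrable_D l m)]
  exact integral_mono (integrable_D k m) ((integrable_D k l).add (integrable_D l m))
    fun x => D_triangle _ _ _ _

theorem rho_lower (k l : L) : dist k l / 2 ≤ rho k l := by
  rw [L1.dist_eq_integral_dist, ← integral_div]
  exact integral_mono ((integrable_dist k l).div_const 2) (integrable_D k l)
    fun x => D_lower _ _ _

theorem rho_upper (k l : L) : rho k l ≤ 2 * dist k l := by
  rw [L1.dist_eq_integral_dist, ← integral_const_mul]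
  exact integral_mono (integrable_D k l) ((integrable_dist k l).const_mul 2)
    fun x => D_upper _ _ _

theorem eq_of_rho_eq_zero {k l : L} (h : rho k l = 0) : k = l := by
  have h1 := rho_lower k l
  have h2 : 0 ≤ dist k l := dist_nonneg
  exact dist_eq_zero.mp (by linarith)

def Btw (a b c : L) : Prop := rho a b + rho b c = rho a c

theorem btw_iff (a b c : L) :
    Btw a b c ↔ ∀ᵐ x ∂mu, (a x ≤ b x ∧ b x ≤ c x) ∨ (c x ≤ b x ∧ b x ≤ a x) := by
  have h1 : rho a b + rho b c - rho a c
      = ∫ x, (D x (a x) (b x) + D x (b x) (c x) - D x (a x) (c x)) ∂mu := by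
    unfold rho
    rw [← integral_add (integrable_D a b) (integrable_D b c)]
    exact (integral_sub ((integrable_D a b).add (integrable_D b c)) (integrable_D a c)).symm
  rw [Btw, ← sub_eq_zero, h1, integral_eq_zero_iff_of_nonneg
    (fun x => sub_nonneg.mpr (D_triangle _ _ _ _))
    (((integrable_D a b).add (integrable_D b c)).sub (integrable_D a c))]
  refine Filter.eventually_congr (Eventually.of_forall fun x => ?_)
  rw [← D_between_iff x, Pi.zero_apply, sub_eq_zero]

end Pool.Agent.MP_1231ed_gt
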