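import Mathlib
import Pool.Agent.MP_1231ed_gt.Rho

/-!
The two metric spaces `Space 0` and `Space 1`, their completeness and separability, and the
isometry between their squares.
-/

noncomputable section

open MeasureTheory Set Filter Topology
open scoped ENNReal

namespace Pool.Agent.MP_1231ed_gt

def Sym (s : ℤ) : Set L := {k | ∀ᵐ x ∂mu, k (tau s x) = s - k x}

def refl (s : ℤ) (k : L) : L :=
  Lp.const 1 mu s - Lp.compMeasurePreserving (tau s) (measurePreserving_tau s) k

theorem refl_ae (s : ℤ) (k : L) : ∀ᵐ x ∂mu, refl s k x = s - k (tau s x) := by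
  filter_upwards [Lp.coeFn_sub (Lp.const 1 mu s)
    (Lp.compMeasurePreserving (tau s) (measurePreserving_tau s) k), Lp.coeFn_const 1 mu s,
    Lp.coeFn_compMeasurePreserving k (measurePreserving_tau s)] with x h1 h2 h3
  rw [refl, h1, Pi.sub_apply, h2, h3]
  rfl

theorem continuous_refl (s : ℤ) : Continuous (refl s) :=
  continuous_const.sub (Lp.isometry_compMeasurePreserving (measurePreserving_tau s)).continuous

theorem mem_Sym_iff (s : ℤ) (k : L) : k ∈ Sym s ↔ refl s k = k := by
  constructor
  · intro h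
    apply Lp.ext
    filter_upwards [h, refl_ae s k] with x h1 h2
    rw [h2, h1]; ring
  · intro h
    have h2 := refl_ae s k
    rw [h] at h2
    filter_upwards [h2] with x h1
    omega

theorem isClosed_Sym (s : ℤ) : IsClosed (Sym s) := by
  have : Sym s = {k | refl s k = k} := by
    ext k; exact mem_Sym_iff s k
  rw [this]
  exact isClosed_eq (continuous_refl s) continuous_id

def Space (s : ℤ) : Type := {k : L // k ∈ Sym s}

def Space.val {s : ℤ} (a : Space s) : L := Subtype.val a

theorem Space.prop {s : ℤ} (a : Space s) : a.val ∈ Sym s := Subtype.prop a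

def Space.mk {s : ℤ} (k : L) (h : k ∈ Sym s) : Space s := Subtype.mk k h

@[simp] theorem Space.val_mk {s : ℤ} (k : L) (h : k ∈ Sym s) : (Space.mk k h).val = k := rfl

theorem Space.ext {s : ℤ} {a b : Space s} (h : a.val = b.val) : a = b := Subtype.ext h

instance (s : ℤ) : MetricSpace (Space s) where
  dist a b := Real.sqrt (rho a.val b.val)
  dist_self a := by simp [rho_self]
  dist_comm a b := by rw [rho_comm]
  dist_triangle a b c := by
    refine (Real.sqrt_le_sqrt (rho_triangle a.val b.val c.val)).trans ?_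
    rw [Real.sqrt_le_left (by positivity), add_sq, Real.sq_sqrt (rho_nonneg _ _),
      Real.sq_sqrt (rho_nonneg _ _)]
    have : 0 ≤ 2 * Real.sqrt (rho a.val b.val) * Real.sqrt (rho b.val c.val) := by positivity
    linarith
  eq_of_dist_eq_zero {a b} h := by
    apply Space.ext
    apply eq_of_rho_eq_zero
    exact (Real.sqrt_eq_zero (rho_nonneg _ _)).mp h

theorem Space.dist_eq {s : ℤ} (a b : Space s) : dist a b = Real.sqrt (rho a.val b.val) := rfl

theorem Space.dist_sq {s : ℤ} (a b : Space s) : dist a b ^ 2 = rho a.val b.val := by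
  rw [Space.dist_eq, Real.sq_sqrt (rho_nonneg _ _)]

theorem Space.tendsto_of_val {s : ℤ} {ι : Type} {l : Filter ι} {u : ι → Space s} {a : Space s}
    (h : Tendsto (fun i => (u i).val) l (𝓝 a.val)) : Tendsto u l (𝓝 a) := by
  rw [tendsto_iff_dist_tendsto_zero] at h ⊢
  have h2 : Tendsto (fun i => Real.sqrt (2 * dist (u i).val a.val)) l (𝓝 0) := by
    have := (h.const_mul 2).sqrt
    simpa using this
  refine squeeze_zero (fun _ => dist_nonneg) (fun i => ?_) h2
  rw [Space.dist_eq]
  exact Real.sqrt_le_sqrt (rho_upper _ _)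

instance (s : ℤ) : CompleteSpace (Space s) := by
  apply Metric.complete_of_cauchySeq_tendsto
  intro u hu
  have hv : CauchySeq (fun n => (u n).val) := by
    rw [Metric.cauchySeq_iff] at hu ⊢
    intro e he
    obtain ⟨N, hN⟩ := hu (Real.sqrt (e / 2)) (by positivity)
    refine ⟨N, fun m hm n hn => ?_⟩
    have h1 := hN m hm n hn
    rw [Space.dist_eq, Real.sqrt_lt_sqrt_iff (rho_nonneg _ _)] at h1
    have h2 := rho_lower (u m).val (u n).val
    linarith
  obtain ⟨k, hk⟩ := cauchySeq_tendsto_of_complete hv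
  have hmem : k ∈ Sym s :=
    (isClosed_Sym s).mem_of_tendsto hk (Eventually.of_forall fun n => (u n).prop)
  exact ⟨Space.mk k hmem, Space.tendsto_of_val hk⟩

instance (s : ℤ) : TopologicalSpace.SeparableSpace (Space s) := by
  have : Fact ((1 : ℝ≥0∞) ≠ ⊤) := ⟨by simp⟩
  let f : {k : L // k ∈ Sym s} → Space s := fun k => Space.mk k.1 k.2
  have hf : Continuous f := by
    rw [continuous_iff_continuousAt]
    intro k
    exact Space.tendsto_of_val (continuous_subtype_val.tendsto k)
  have hs : Function.Surjective f := fun a => ⟨⟨a.val, a.prop⟩, rfl⟩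
  exact hs.denseRange.separableSpace hf

/-- A measurable fundamental domain for the reflection `tau s`. -/
def P (s : ℤ) : Set Y := {x | embeddingReal Y x < embeddingReal Y (tau s x)}

theorem measurableSet_P (s : ℤ) : MeasurableSet (P s) :=
  measurableSet_lt (measurableEmbedding_embeddingReal Y).measurable
    ((measurableEmbedding_embeddingReal Y).measurable.comp (measurable_tau s))

theorem ae_tau_ne (s : ℤ) : ∀ᵐ x ∂mu, tau s x ≠ x := by
  have h1 : MeasurePreserving (fun x : Y => (2 : ℤ) • x) mu mu :=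
    Measure.measurePreserving_zsmul mu (by norm_num)
  have h2 : ∀ᵐ y ∂mu, y ≠ -(s • al) := by
    have h3 := AddCircle.volume_closedBall (T := 1) (x := -(s • al)) 0
    rw [AddCircle.volume_eq_smul_haarAddCircle, Metric.closedBall_zero] at h3
    rw [ae_iff]
    simpa using h3
  filter_upwards [h1.quasiMeasurePreserving.ae h2] with x hx h
  apply hx
  rw [tau] at h
  rw [two_smul]
  nth_rewrite 1 [← h]
  abel

theorem ae_tau_mem_P (s : ℤ) : ∀ᵐ x ∂mu, (tau s x ∈ P s ↔ x ∉ P s) := by
  filter_upwards [ae_tau_ne s] with x hx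
  have h1 : embeddingReal Y (tau s x) ≠ embeddingReal Y x :=
    fun h => hx ((measurableEmbedding_embeddingReal Y).injective h)
  simp only [P, mem_ofPred_eq, tau_tau, not_lt]
  exact ⟨le_of_lt, fun h => lt_of_le_of_ne h h1⟩

open Classical in
def mix (s : ℤ) (k l : L) : L :=
  Integrable.toL1 ((P s).piecewise k l)
    (Integrable.piecewise (measurableSet_P s) (L1.integrable_coeFn k).integrableOn
      (L1.integrable_coeFn l).integrableOn)

open Classical in
theorem mix_ae (s : ℤ) (k l : L) : ∀ᵐ x ∂mu, mix s k l x = if x ∈ P s then k x else l x := by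
  filter_upwards [Integrable.coeFn_toL1 (Integrable.piecewise (measurableSet_P s)
    (L1.integrable_coeFn k).integrableOn (L1.integrable_coeFn l).integrableOn)] with x hx
  rw [mix, hx]
  rfl

open Classical in
theorem integral_half (s : ℤ) (u : Y → ℝ) (hu : Integrable u mu)
    (h : ∀ᵐ x ∂mu, u (tau s x) = u x) :
    ∫ x, (if x ∈ P s then u x else 0) ∂mu = (∫ x, u x ∂mu) / 2 ∧
    ∫ x, (if x ∈ P s then 0 else u x) ∂mu = (∫ x, u x ∂mu) / 2 := by
  have h1 : ∫ x, (if x ∈ P s then u x else 0) ∂mu = ∫ x, (if x ∈ P s then 0 else u x) ∂mu := by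
    rw [← integral_tau s]
    apply integral_congr_ae
    filter_upwards [h, ae_tau_mem_P s] with x h2 h3
    by_cases hx : x ∈ P s
    · rw [if_pos hx, if_neg (fun h4 => h3.mp h4 hx)]
    · rw [if_neg hx, if_pos (h3.mpr hx), h2]
  have i1 : Integrable (fun x => if x ∈ P s then u x else 0) mu :=
    hu.indicator (measurableSet_P s)
  have i2 : Integrable (fun x => if x ∈ P s then 0 else u x) mu := by
    have := hu.indicator (measurableSet_P s).compl
    refine this.congr (Eventually.of_forall fun x => ?_)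
    by_cases hx : x ∈ P s <;> simp [hx]
  have h2 : ∫ x, (if x ∈ P s then u x else 0) ∂mu + ∫ x, (if x ∈ P s then 0 else u x) ∂mu
      = ∫ x, u x ∂mu := by
    rw [← integral_add i1 i2]
    congr 1; ext x
    split_ifs <;> simp
  constructor <;> linarith

theorem D_sym {s : ℤ} {k l : L} (hk : k ∈ Sym s) (hl : l ∈ Sym s) :
    ∀ᵐ x ∂mu, D (tau s x) (k (tau s x)) (l (tau s x)) = D x (k x) (l x) := by
  filter_upwards [hk, hl] with x h1 h2
  rw [h1, h2, D_tau]

theorem rho_mix {s : ℤ} {k l k' l' : L} (hk : k ∈ Sym s) (hl : l ∈ Sym s) (hk' : k' ∈ Sym s)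
    (hl' : l' ∈ Sym s) : 2 * rho (mix s k l) (mix s k' l') = rho k k' + rho l l' := by
  classical
  have h1 := (integral_half s _ (integrable_D k k') (D_sym hk hk')).1
  have h2 := (integral_half s _ (integrable_D l l') (D_sym hl hl')).2
  have i1 : Integrable (fun x => if x ∈ P s then D x (k x) (k' x) else 0) mu :=
    (integrable_D k k').indicator (measurableSet_P s)
  have i2 : Integrable (fun x => if x ∈ P s then 0 else D x (l x) (l' x)) mu := by
    have := (integrable_D l l').indicator (measurableSet_P s).compl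
    refine this.congr (Eventually.of_forall fun x => ?_)
    by_cases hx : x ∈ P s <;> simp [hx]
  have h3 : rho (mix s k l) (mix s k' l')
      = ∫ x, (if x ∈ P s then D x (k x) (k' x) else 0) ∂mu
        + ∫ x, (if x ∈ P s then 0 else D x (l x) (l' x)) ∂mu := by
    rw [← integral_add i1 i2]
    apply integral_congr_ae
    filter_upwards [mix_ae s k l, mix_ae s k' l'] with x h4 h5
    rw [h4, h5]
    split_ifs <;> simp
  rw [h3, h1, h2, rho, rho]
  ring

theorem mix_refl_mem (s : ℤ) (f : L) :
    mix s f (refl s f) ∈ Sym s ∧ mix s (refl s f) f ∈ Sym s := by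
  constructor
  · filter_upwards [mix_ae s f (refl s f), ae_tau s (mix_ae s f (refl s f)), refl_ae s f,
      ae_tau s (refl_ae s f), ae_tau_mem_P s] with x h1 h2 h3 h4 h5
    rw [h1, h2, h3, h4, tau_tau]
    by_cases hx : x ∈ P s
    · rw [if_pos hx, if_neg (fun h6 => h5.mp h6 hx)]
    · rw [if_neg hx, if_pos (h5.mpr hx)]; ring
  · filter_upwards [mix_ae s (refl s f) f, ae_tau s (mix_ae s (refl s f) f), refl_ae s f,
      ae_tau s (refl_ae s f), ae_tau_mem_P s] with x h1 h2 h3 h4 h5
    rw [h1, h2, h3, h4, tau_tau]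
    by_cases hx : x ∈ P s
    · rw [if_pos hx, if_neg (fun h6 => h5.mp h6 hx)]; ring
    · rw [if_neg hx, if_pos (h5.mpr hx)]

def glue (s : ℤ) (p : Space s × Space s) : L := mix s p.1.val p.2.val

theorem rho_glue (s : ℤ) (p q : Space s × Space s) :
    2 * rho (glue s p) (glue s q) = dist p.1 q.1 ^ 2 + dist p.2 q.2 ^ 2 := by
  rw [Space.dist_sq, Space.dist_sq]
  exact rho_mix p.1.prop p.2.prop q.1.prop q.2.prop

theorem glue_bijective (s : ℤ) : Function.Bijective (glue s) := by
  constructor
  · intro p q h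
    have h1 := rho_glue s p q
    rw [h, rho_self] at h1
    have h2 : dist p.1 q.1 = 0 := by nlinarith [sq_nonneg (dist p.1 q.1), sq_nonneg (dist p.2 q.2)]
    have h3 : dist p.2 q.2 = 0 := by nlinarith [sq_nonneg (dist p.1 q.1), sq_nonneg (dist p.2 q.2)]
    exact Prod.ext (dist_eq_zero.mp h2) (dist_eq_zero.mp h3)
  · intro f
    refine ⟨(Space.mk _ (mix_refl_mem s f).1, Space.mk _ (mix_refl_mem s f).2), ?_⟩
    apply Lp.ext
    simp only [glue, Space.val_mk]
    filter_upwards [mix_ae s (mix s f (refl s f)) (mix s (refl s f) f), mix_ae s f (refl s f),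
      mix_ae s (refl s f) f] with x h1 h2 h3
    rw [h1, h2, h3]
    split_ifs <;> rfl

/-- The squares of the spaces `Space s` are all isometric. -/
theorem exists_square_equiv (s t : ℤ) : ∃ e : Space s × Space s ≃ Space t × Space t,
    ∀ p q, dist (e p).1 (e q).1 ^ 2 + dist (e p).2 (e q).2 ^ 2
      = dist p.1 q.1 ^ 2 + dist p.2 q.2 ^ 2 := by
  refine ⟨(Equiv.ofBijective _ (glue_bijective s)).trans
    (Equiv.ofBijective _ (glue_bijective t)).symm, fun p q => ?_⟩
  rw [← rho_glue, ← rho_glue]
  have : ∀ r, glue t (((Equiv.ofBijective _ (glue_bijective s)).trans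
      (Equiv.ofBijective _ (glue_bijective t)).symm) r) = glue s r := fun r =>
    (Equiv.ofBijective _ (glue_bijective t)).apply_symm_apply _
  rw [this, this]

end Pool.Agent.MP_1231ed_gt
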