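import Mathlib
import Pool.Agent.MP_1231ed_gt.Space
import Pool.Agent.MP_1231ed_gt.Flux

/-!
The spaces `Space 0` and `Space 1` are not isometric.
-/

noncomputable section

open MeasureTheory Set Filter Topology
open scoped ENNReal

namespace Pool.Agent.MP_1231ed_gt

def toL (f : Y → ℤ) (hf : Integrable f mu) : L := hf.toL1 f

theorem toL_ae (f : Y → ℤ) (hf : Integrable f mu) : ∀ᵐ x ∂mu, toL f hf x = f x :=
  Integrable.coeFn_toL1 hf

theorem integrable_of_bound {f : Y → ℤ} (hf : Measurable f) (C : ℤ) (h : ∀ x, |f x| ≤ C) :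
    Integrable f mu := by
  refine Integrable.of_bound hf.aestronglyMeasurable (C : ℝ) (Eventually.of_forall fun x => ?_)
  rw [Int.norm_eq_abs]
  exact_mod_cast h x

open Classical in
def sg (s : ℤ) (x : Y) : ℤ := if x ∈ P s then 1 else -1

theorem measurable_sg (s : ℤ) : Measurable (sg s) :=
  Measurable.ite (measurableSet_P s) measurable_const measurable_const

theorem sg_cases (s : ℤ) (x : Y) : sg s x = 1 ∨ sg s x = -1 := by
  unfold sg; split_ifs <;> simp

theorem sg_tau (s : ℤ) : ∀ᵐ x ∂mu, sg s (tau s x) = -sg s x := by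
  filter_upwards [ae_tau_mem_P s] with x h
  unfold sg
  by_cases hx : x ∈ P s
  · rw [if_pos hx, if_neg (fun h6 => h.mp h6 hx)]
  · rw [if_neg hx, if_pos (h.mpr hx)]; simp

theorem integrable_e (n : ℤ) : Integrable (fun x => sg 0 x * n) mu := by
  refine integrable_of_bound ((measurable_sg 0).mul_const n) |n| fun x => ?_
  rcases sg_cases 0 x with h | h <;> simp [h]

theorem e_mem (n : ℤ) : toL _ (integrable_e n) ∈ Sym 0 := by
  filter_upwards [toL_ae _ (integrable_e n), ae_tau 0 (toL_ae _ (integrable_e n)), sg_tau 0]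
    with x h1 h2 h3
  rw [h1, h2, h3]; ring

def e (n : ℤ) : Space 0 := Space.mk _ (e_mem n)

theorem e_ae (n : ℤ) : ∀ᵐ x ∂mu, (e n).val x = sg 0 x * n := toL_ae _ (integrable_e n)

section

variable (Φ : Space 0 ≃ᵢ Space 1)

theorem rho_map (a b : Space 0) : rho (Φ a).val (Φ b).val = rho a.val b.val := by
  rw [← Space.dist_sq, ← Space.dist_sq, Φ.dist_eq]

theorem btw_map (a b c : Space 0) :
    Btw (Φ a).val (Φ b).val (Φ c).val ↔ Btw a.val b.val c.val := by
  simp only [Btw, rho_map]

theorem ae_ne (n : ℤ) : ∀ᵐ x ∂mu, (Φ (e n)).val x ≠ (Φ (e (n + 1))).val x := by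
  classical
  set b := Φ (e n) with hb
  set b' := Φ (e (n + 1)) with hb'
  let z : Y → ℤ := fun x => if b.val x = b'.val x then sg 1 x else 0
  have mz : Measurable z :=
    Measurable.ite (measurableSet_eq_fun (L_measurable _) (L_measurable _)) (measurable_sg 1)
      measurable_const
  have iz : Integrable z mu := by
    refine integrable_of_bound mz 1 fun x => ?_
    simp only [z]
    split_ifs
    · rcases sg_cases 1 x with h | h <;> simp [h]
    · simp
  have ztau : ∀ᵐ x ∂mu, z (tau 1 x) = -z x := by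
    filter_upwards [b.prop, b'.prop, sg_tau 1] with x h1 h2 h3
    simp only [z, h1, h2, h3]
    split_ifs <;> omega
  have hadd : ∀ c : Space 1, ∃ w : Space 1, ∀ᵐ x ∂mu, w.val x = c.val x + z x := by
    intro c
    have h0 : ∀ᵐ x ∂mu, (c.val + toL z iz) x = c.val x + z x := by
      filter_upwards [Lp.coeFn_add c.val (toL z iz), toL_ae z iz] with x h1 h2
      rw [h1, Pi.add_apply, h2]
    refine ⟨Space.mk (c.val + toL z iz) ?_, h0⟩
    filter_upwards [h0, ae_tau 1 h0, c.prop, ztau] with x h1 h2 h3 h4
    rw [h1, h2, h3, h4]; ring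
  obtain ⟨w, hw⟩ := hadd b
  obtain ⟨w', hw'⟩ := hadd b'
  obtain ⟨u, rfl⟩ := Φ.surjective w
  obtain ⟨u', rfl⟩ := Φ.surjective w'
  have hz : ∀ x, b.val x = b'.val x ∨ z x = 0 := by
    intro x
    by_cases h : b.val x = b'.val x
    · exact Or.inl h
    · right; simp only [z, if_neg h]
  have r1 : Btw b.val (Φ u).val (Φ u').val := by
    rw [btw_iff]
    filter_upwards [hw, hw'] with x h1 h2
    have := hz x
    omega
  have r2 : Btw b.val b'.val (Φ u').val := by
    rw [btw_iff]
    filter_upwards [hw, hw'] with x h1 h2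
    have := hz x
    omega
  have r3 : Btw (Φ u).val b.val b'.val := by
    rw [btw_iff]
    filter_upwards [hw, hw'] with x h1 h2
    have := hz x
    omega
  have r4 : Btw (Φ u).val (Φ u').val b'.val := by
    rw [btw_iff]
    filter_upwards [hw, hw'] with x h1 h2
    have := hz x
    omega
  rw [hb, btw_map, btw_iff] at r1
  rw [hb, hb', btw_map, btw_iff] at r2 r3
  rw [hb', btw_map, btw_iff] at r4
  have hu : u = e n := by
    apply Space.ext
    apply Lp.ext
    filter_upwards [r1, r2, r3, r4, e_ae n, e_ae (n + 1)] with x h1 h2 h3 h4 h5 h6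
    rcases sg_cases 0 x with h | h <;> rw [h] at h5 h6 <;> omega
  rw [hu, ← hb] at hw
  filter_upwards [hw] with x h1 h2
  have h3 : z x = sg 1 x := if_pos h2
  rcases sg_cases 1 x with h | h <;> omega

theorem ae_step (n : ℤ) : ∀ᵐ x ∂mu, (Φ (e (n + 1))).val x = (Φ (e n)).val x + 1 ∨
    (Φ (e (n + 1))).val x = (Φ (e n)).val x - 1 := by
  classical
  have hne := ae_ne Φ n
  set b := Φ (e n) with hb
  set b' := Φ (e (n + 1)) with hb'
  let z : Y → ℤ := fun x => if b.val x < b'.val x then 1 else -1
  have mz : Measurable z :=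
    Measurable.ite (measurableSet_lt (L_measurable _) (L_measurable _)) measurable_const
      measurable_const
  have iz : Integrable z mu := by
    refine integrable_of_bound mz 1 fun x => ?_
    simp only [z]
    split_ifs <;> simp
  have ztau : ∀ᵐ x ∂mu, z (tau 1 x) = -z x := by
    filter_upwards [b.prop, b'.prop, hne] with x h1 h2 h3
    simp only [z, h1, h2]
    split_ifs <;> omega
  have h0 : ∀ᵐ x ∂mu, (b.val + toL z iz) x = b.val x + z x := by
    filter_upwards [Lp.coeFn_add b.val (toL z iz), toL_ae z iz] with x h1 h2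
    rw [h1, Pi.add_apply, h2]
  have hmem : b.val + toL z iz ∈ Sym 1 := by
    filter_upwards [h0, ae_tau 1 h0, b.prop, ztau] with x h1 h2 h3 h4
    rw [h1, h2, h3, h4]; ring
  obtain ⟨u, hu⟩ := Φ.surjective (Space.mk _ hmem)
  have hc : ∀ᵐ x ∂mu, (Φ u).val x = b.val x + z x := by rw [hu]; exact h0
  have hz : ∀ x, (b.val x < b'.val x ∧ z x = 1) ∨ (¬ b.val x < b'.val x ∧ z x = -1) := by
    intro x
    by_cases h : b.val x < b'.val x
    · exact Or.inl ⟨h, if_pos h⟩
    · exact Or.inr ⟨h, if_neg h⟩
  have r0 : Btw b.val (Φ u).val b'.val := by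
    rw [btw_iff]
    filter_upwards [hc, hne] with x h1 h2
    have := hz x
    omega
  have r0' := r0
  rw [hb, hb', btw_map, btw_iff] at r0'
  have h1 : ∀ᵐ x ∂mu, ((e n).val + (e (n + 1)).val - u.val) x
      = (e n).val x + (e (n + 1)).val x - u.val x := by
    filter_upwards [Lp.coeFn_sub ((e n).val + (e (n + 1)).val) u.val,
      Lp.coeFn_add (e n).val (e (n + 1)).val] with x h1 h2
    rw [h1, Pi.sub_apply, h2, Pi.add_apply]
  have hv : (e n).val + (e (n + 1)).val - u.val ∈ Sym 0 := by
    show ∀ᵐ x ∂mu, ((e n).val + (e (n + 1)).val - u.val) (tau 0 x)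
      = 0 - ((e n).val + (e (n + 1)).val - u.val) x
    filter_upwards [h1, ae_tau 0 h1, (e n).prop, (e (n + 1)).prop, u.prop] with x h2 h3 h4 h5 h6
    rw [h2, h3, h4, h5, h6]; ring
  set v : Space 0 := Space.mk _ hv with hvdef
  have hv1 : ∀ᵐ x ∂mu, v.val x = (e n).val x + (e (n + 1)).val x - u.val x := h1
  have r1 : Btw (e n).val v.val (e (n + 1)).val := by
    rw [btw_iff]
    filter_upwards [r0', hv1] with x h2 h3
    omega
  have r2 : Btw u.val (e n).val v.val := by
    rw [btw_iff]
    filter_upwards [r0', hv1, e_ae n, e_ae (n + 1)] with x h2 h3 h5 h6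
    rcases sg_cases 0 x with h | h <;> rw [h] at h5 h6 <;> omega
  have r3 : Btw u.val (e (n + 1)).val v.val := by
    rw [btw_iff]
    filter_upwards [r0', hv1, e_ae n, e_ae (n + 1)] with x h2 h3 h5 h6
    rcases sg_cases 0 x with h | h <;> rw [h] at h5 h6 <;> omega
  rw [← btw_map Φ, btw_iff, ← hb, ← hb'] at r1
  rw [← btw_map Φ, btw_iff, ← hb] at r2
  rw [← btw_map Φ, btw_iff, ← hb'] at r3
  rw [btw_iff] at r0
  filter_upwards [r0, r1, r2, r3, hc, hne] with x h2 h3 h4 h5 h6 h7
  have := hz x
  omega

theorem ae_linear : ∀ᵐ x ∂mu, (∀ n : ℤ, (Φ (e n)).val x = (Φ (e 0)).val x + n) ∨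
    (∀ n : ℤ, (Φ (e n)).val x = (Φ (e 0)).val x - n) := by
  have hb : ∀ n : ℤ, Btw (Φ (e n)).val (Φ (e (n + 1))).val (Φ (e (n + 1 + 1))).val := by
    intro n
    rw [btw_map, btw_iff]
    filter_upwards [e_ae n, e_ae (n + 1), e_ae (n + 1 + 1)] with x h1 h2 h3
    rcases sg_cases 0 x with h | h <;> rw [h] at h1 h2 h3 <;> omega
  simp only [btw_iff] at hb
  filter_upwards [ae_all_iff.mpr hb, ae_all_iff.mpr (ae_step Φ)] with x h1 h2
  set b : ℤ → ℤ := fun n => (Φ (e n)).val x with hbdef
  have h3 : ∀ n, b (n + 1 + 1) - b (n + 1) = b (n + 1) - b n := by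
    intro n
    have := h1 n
    have := h2 n
    have := h2 (n + 1)
    simp only [hbdef]
    omega
  have h4 : ∀ n : ℤ, b (n + 1) - b n = b (0 + 1) - b 0 := by
    intro n
    induction n using Int.induction_on with
    | zero => rfl
    | succ n ih => rw [h3, ih]
    | pred n ih =>
      have := h3 (-(n : ℤ) - 1)
      rw [sub_add_cancel] at this
      rw [sub_add_cancel, ← this, ih]
  have h5 : ∀ n : ℤ, b n = b 0 + (b (0 + 1) - b 0) * n := by
    intro n
    induction n using Int.induction_on with
    | zero => simp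
    | succ n ih => have := h4 n; rw [mul_add, mul_one]; omega
    | pred n ih =>
      have := h4 (-(n : ℤ) - 1)
      rw [sub_add_cancel] at this
      rw [mul_sub, mul_one]; omega
  rcases h2 0 with h | h
  · left
    intro n
    have h6 : b (0 + 1) - b 0 = 1 := by simp only [hbdef]; omega
    have := h5 n
    rw [h6] at this
    simpa [hbdef] using this
  · right
    intro n
    have h6 : b (0 + 1) - b 0 = -1 := by simp only [hbdef]; omega
    have := h5 n
    rw [h6] at this
    simpa [hbdef, sub_eq_add_neg] using this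

end

theorem D_pair (x : Y) (m n : ℤ) (b : ℤ → ℤ) (h : (∀ j, b j = m + j) ∨ (∀ j, b j = m - j)) :
    D x (b n) (b (n + 1)) + D x (b (-n - 1)) (b (-n))
      = g (x + (m + n) • al) + g (x + (m - n - 1) • al) := by
  rcases h with h | h
  · rw [h, h, h, h, ← D_succ, ← D_succ]
    congr 2 <;> ring
  · rw [h, h, h, h, ← D_succ, ← D_succ, add_comm, D_comm x (m - n), D_comm x (m - (-n - 1))]
    congr 2 <;> ring

theorem integrable_g_comp {f : Y → Y} (hf : Measurable f) : Integrable (fun x => g (f x)) mu := by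
  refine Integrable.of_bound (continuous_g.measurable.comp hf).aestronglyMeasurable 2
    (Eventually.of_forall fun x => ?_)
  have h1 := gam_lower (f x + be)
  have h2 := gam_upper (f x + be)
  rw [Real.norm_eq_abs, g, abs_of_nonneg (by linarith)]
  exact h2

theorem measurable_shift {M : Y → ℤ} (hM : Measurable M) : Measurable (fun x => x + M x • al) :=
  measurable_id.add ((measurable_of_countable (fun m : ℤ => m • al)).comp hM)

theorem not_isometric : IsEmpty (Space 0 ≃ᵢ Space 1) := by
  refine ⟨fun Φ => ?_⟩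
  set M : Y → ℤ := fun x => (Φ (e 0)).val x with hMdef
  have hM : Measurable M := L_measurable _
  have hsym : ∀ᵐ x ∂mu, M (tau 1 x) = 1 - M x := (Φ (e 0)).prop
  have key : ∀ n : ℤ, ∫ x, g (x + (M x + n) • al) ∂mu = ∫ x, g x ∂mu := by
    intro n
    have h1 : rho (Φ (e n)).val (Φ (e (n + 1))).val + rho (Φ (e (-n - 1))).val (Φ (e (-n))).val
        = ∫ x, g (x + (M x + n) • al) ∂mu + ∫ x, g (x + (M x - n - 1) • al) ∂mu := by
      rw [rho, rho, ← integral_add (integrable_D _ _) (integrable_D _ _),
        ← integral_add (integrable_g_comp (measurable_shift (hM.add_const n)))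
          (integrable_g_comp (measurable_shift ((hM.sub_const n).sub_const 1)))]
      apply integral_congr_ae
      filter_upwards [ae_linear Φ] with x hx
      exact D_pair x (M x) n (fun j => (Φ (e j)).val x) hx
    have h2 : rho (e n).val (e (n + 1)).val + rho (e (-n - 1)).val (e (-n)).val
        = ∫ x, g (x + (0 + n) • al) ∂mu + ∫ x, g (x + (0 - n - 1) • al) ∂mu := by
      rw [rho, rho, ← integral_add (integrable_D _ _) (integrable_D _ _),
        ← integral_add (integrable_g_comp (measurable_add_const _))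
          (integrable_g_comp (measurable_add_const _))]
      apply integral_congr_ae
      filter_upwards [ae_all_iff.mpr e_ae] with x hx
      refine D_pair x 0 n (fun j => (e j).val x) ?_
      rcases sg_cases 0 x with h | h
      · left; intro j; rw [hx, h]; ring
      · right; intro j; rw [hx, h]; ring
    rw [integral_add_right_eq_self g, integral_add_right_eq_self g] at h2
    have h3 : ∫ x, g (x + (M x - n - 1) • al) ∂mu = ∫ x, g (x + (M x + n) • al) ∂mu := by
      rw [← integral_tau 1 (fun x => g (x + (M x + n) • al))]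
      apply integral_congr_ae
      filter_upwards [hsym] with x hx
      rw [hx, ← g_refl]
      congr 1
      simp only [tau, sub_smul, add_smul, one_smul]; abel
    rw [rho_map, rho_map, h2, h3] at h1
    linarith
  have hTheta := measurable_shift hM
  have : IsProbabilityMeasure (Measure.map (fun x => x + M x • al) mu) :=
    Measure.isProbabilityMeasure_map hTheta.aemeasurable
  have hmap : Measure.map (fun x => x + M x • al) mu = mu := by
    apply eq_mu_of_translates _ (∫ x, g x ∂mu)
    intro n
    rw [integral_map hTheta.aemeasurable, ← key n]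
    · congr 1; ext x
      simp only [g, add_smul]
      congr 1; abel
    · exact (continuous_gam.comp ((continuous_id.add continuous_const).add
        continuous_const)).aestronglyMeasurable
  have hint : Integrable (fun x => (M x : ℝ)) mu := by
    refine Integrable.mono' (L1.integrable_coeFn (Φ (e 0)).val).norm
      ((measurable_of_countable (fun m : ℤ => (m : ℝ))).comp hM).aestronglyMeasurable
      (Eventually.of_forall fun x => ?_)
    rw [Int.norm_cast_real]
  obtain ⟨c, hc⟩ := integral_int_of_map_eq M hM hint hmap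
  have h4 : ∫ x, (M x : ℝ) ∂mu = 1 - ∫ x, (M x : ℝ) ∂mu := by
    conv_lhs => rw [← integral_tau 1]
    have : ∫ x, (1 - (M x : ℝ)) ∂mu = 1 - ∫ x, (M x : ℝ) ∂mu := by
      rw [integral_sub (integrable_const _) hint]; simp
    rw [← this]
    apply integral_congr_ae
    filter_upwards [hsym] with x hx
    rw [hx]; push_cast; ring
  rw [hc] at h4
  have h5 : (2 * c : ℤ) = 1 := by
    have : ((2 * c : ℤ) : ℝ) = 1 := by push_cast; linarith
    exact_mod_cast this
  omega

end Pool.Agent.MP_1231ed_gt

namespace Pool.Agent.MP_1231ed_gt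

theorem main : ∃ (A B : Type) (_ : MetricSpace A) (_ : MetricSpace B),
    CompleteSpace A ∧ CompleteSpace B ∧
    TopologicalSpace.SeparableSpace A ∧ TopologicalSpace.SeparableSpace B ∧
    (∃ φ : A × A ≃ B × B, ∀ p q : A × A,
      Real.sqrt (dist (φ p).1 (φ q).1 ^ 2 + dist (φ p).2 (φ q).2 ^ 2)
        = Real.sqrt (dist p.1 q.1 ^ 2 + dist p.2 q.2 ^ 2)) ∧
    IsEmpty (A ≃ᵢ B) := by
  refine ⟨Space 0, Space 1, inferInstance, inferInstance, inferInstance, inferInstance,
    inferInstance, inferInstance, ?_, not_isometric⟩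
  obtain ⟨φ, hφ⟩ := exists_square_equiv 0 1
  exact ⟨φ, fun p q => by rw [hφ]⟩

end Pool.Agent.MP_1231ed_gt
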